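import Mathlib
import Pool.Agent.Lib.MP_93b2dd_co.Defs
import Pool.Agent.Lib.MP_93b2dd_co.Dart
import Pool.Agent.Lib.MP_93b2dd_co.Prism
import Pool.Agent.Lib.MP_93b2dd_co.Contact
import Pool.Agent.Lib.MP_93b2dd_co.Coloring
import Pool.Agent.Lib.MP_93b2dd_co.Final

/-!
# The chromatic number of polyhedral surfaces is unbounded

For every `C` there are a genus `g` and an `S_g`-polytope (a closed orientable surface of genus `g`
embedded in `ℝ³` and made of convex polygons, adjacent ones not coplanar) whose faces cannot be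
properly coloured with `C` colours.
-/

namespace Pool.Agent.Results.MP_93b2dd_co.Unbounded

open Pool.Agent.Lib.MP_93b2dd_co

theorem result : ∀ C : ℕ, ∃ (g : ℕ) (F : Set (Set E3)),
    IsPolytope g F ∧ ¬ (dualGraph F).Colorable C := by
  intro C
  obtain ⟨W, hW, G, ⟨K⟩, hG⟩ := exists_contactSystem_not_colorable (C + 2) (by omega)
  obtain ⟨s, h1, h2, h3⟩ := exists_critical G (C + 2) (by omega) hG
  classical
  have : Fintype s := Fintype.ofFinite _
  obtain ⟨PS⟩ := (K.restrict s).exists_prismSystem h3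
  have hne : Nonempty (G.induce s).Dart := by
    obtain ⟨v⟩ := h2.nonempty
    obtain ⟨a, b, _, hab, _⟩ := h3 v
    exact ⟨⟨(v, a), hab⟩⟩
  obtain ⟨g, S, top, htop⟩ := PS.exists_dartSurface h2 hne
  refine ⟨g, Set.range S.face, S.isPolytope, ?_⟩
  intro hcol
  apply h1
  obtain ⟨col⟩ := hcol.mono (show C ≤ C + 2 by omega)
  refine ⟨SimpleGraph.Coloring.mk (fun w => col ⟨S.face (top w), ⟨top w, rfl⟩⟩) ?_⟩
  intro w w' hww'
  apply col.valid
  obtain ⟨d, hd1, hd2⟩ := htop w w' hww'
  change Adjacent (S.face (top w)) (S.face (top w'))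
  rw [← hd1, ← hd2]
  exact S.adjacent_of_dart d

end Pool.Agent.Results.MP_93b2dd_co.Unbounded
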